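import Mathlib.RingTheory.PowerSeries.Inverse

/-!
The two sides of the inequality, as power series in `q = X` (with rational coefficients, so that
`⁻¹` is the inverse of power series with nonzero constant coefficient).
-/

open PowerSeries

namespace Q155.QI

/-- The `q`-Pochhammer symbol with base `b`: `(a; b)_n = ∏_{k < n} (1 - a b^k)`. -/
noncomputable def poch (a b : PowerSeries ℚ) (n : ℕ) : PowerSeries ℚ :=
  ∏ k ∈ Finset.range n, (1 - a * b ^ k)

/-- The Gaussian binomial coefficient `[n, m]` with base `b`. -/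
noncomputable def gauss (b : PowerSeries ℚ) (n m : ℕ) : PowerSeries ℚ :=
  if m ≤ n then poch b b n * (poch b b m * poch b b (n - m))⁻¹ else 0

/-- The left side: `1/(q;q^2)_L * ((1-q^(2L-2))/(1-q^2) + q^3 [L-2,2]_{q^2})`. -/
noncomputable def lhs (L : ℕ) : PowerSeries ℚ :=
  (poch X (X ^ 2) L)⁻¹ *
    ((1 - X ^ (2 * L - 2)) * (1 - X ^ 2)⁻¹ + X ^ 3 * gauss (X ^ 2) (L - 2) 2)

/-- The right side: `q [L-2,2]_q (-q^3;q)_{L-4}`. -/
noncomputable def rhs (L : ℕ) : PowerSeries ℚ :=
  X * gauss X (L - 2) 2 * poch (-X ^ 3) X (L - 4)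

end Q155.QI
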