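import Mathlib
import Pool.Agent.Q155.QI.Defs

open PowerSeries Finset

namespace Q155.QI

/-- all coefficients are nonnegative -/
def NN (f : PowerSeries ℚ) : Prop := ∀ n, 0 ≤ coeff n f

theorem NN.add {f g : PowerSeries ℚ} (hf : NN f) (hg : NN g) : NN (f + g) := by
  intro n; rw [map_add]; exact add_nonneg (hf n) (hg n)

theorem NN.mul {f g : PowerSeries ℚ} (hf : NN f) (hg : NN g) : NN (f * g) := by
  intro n; rw [coeff_mul]
  exact Finset.sum_nonneg fun p _ => mul_nonneg (hf _) (hg _)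

theorem NN.zero : NN 0 := by intro n; simp

theorem NN.one : NN 1 := by
  intro n; rw [coeff_one]; split <;> norm_num

theorem NN.X_pow (k : ℕ) : NN (X ^ k) := by
  intro n; rw [coeff_X_pow]; split <;> norm_num

theorem NN.var : NN X := by simpa using NN.X_pow 1

theorem NN.sum {ι : Type*} (s : Finset ι) (f : ι → PowerSeries ℚ) (h : ∀ i ∈ s, NN (f i)) :
    NN (∑ i ∈ s, f i) := by
  classical
  induction s using Finset.induction_on with
  | empty => simpa using NN.zero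
  | insert a s ha ih =>
    rw [Finset.sum_insert ha]
    exact (h a (by simp)).add (ih fun i hi => h i (by simp [hi]))

theorem NN.prod {ι : Type*} (s : Finset ι) (f : ι → PowerSeries ℚ) (h : ∀ i ∈ s, NN (f i)) :
    NN (∏ i ∈ s, f i) := by
  classical
  induction s using Finset.induction_on with
  | empty => simpa using NN.one
  | insert a s ha ih =>
    rw [Finset.prod_insert ha]
    exact (h a (by simp)).mul (ih fun i hi => h i (by simp [hi]))

theorem cc_one_sub_X_pow {k : ℕ} (hk : k ≠ 0) :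
    constantCoeff (1 - X ^ k : PowerSeries ℚ) ≠ 0 := by
  simp [hk]

theorem one_sub_mul_inv {k : ℕ} (hk : k ≠ 0) :
    (1 - X ^ k : PowerSeries ℚ) * (1 - X ^ k)⁻¹ = 1 :=
  PowerSeries.mul_inv_cancel _ (cc_one_sub_X_pow hk)

/-- `1/(1 - q^k)` has nonnegative coefficients. -/
theorem NN.geom {k : ℕ} (hk : k ≠ 0) : NN (1 - X ^ k)⁻¹ := by
  intro n
  induction n using Nat.strong_induction_on with
  | _ n ih =>
    have h : (1 - X ^ k : PowerSeries ℚ)⁻¹ = 1 + X ^ k * (1 - X ^ k)⁻¹ := by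
      have := one_sub_mul_inv hk
      linear_combination this
    rw [h, map_add, coeff_X_pow_mul']
    refine add_nonneg (NN.one n) ?_
    split
    · exact ih _ (by omega)
    · exact le_rfl

/-- `1/(1-q^k) - 1` has nonnegative coefficients. -/
theorem NN.geom_sub_one {k : ℕ} (hk : k ≠ 0) : NN ((1 - X ^ k)⁻¹ - 1) := by
  have h : (1 - X ^ k : PowerSeries ℚ)⁻¹ - 1 = X ^ k * (1 - X ^ k)⁻¹ := by
    have := one_sub_mul_inv hk
    linear_combination this
  rw [h]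
  exact (NN.X_pow k).mul (NN.geom hk)

/-- The product of the inverses. -/
noncomputable def N (L : ℕ) : PowerSeries ℚ := ∏ i ∈ range L, (1 - X ^ (2 * i + 1))⁻¹

/-- `(-q;q)_M` -/
noncomputable def D (M : ℕ) : PowerSeries ℚ := ∏ i ∈ range M, (1 + X ^ (i + 1))

/-- `1/(q^(M+1);q)_M` -/
noncomputable def R (M : ℕ) : PowerSeries ℚ := ∏ i ∈ range M, (1 - X ^ (M + 1 + i))⁻¹

theorem NN_N (L : ℕ) : NN (N L) := NN.prod _ _ fun i _ => NN.geom (by omega)

theorem NN_D (L : ℕ) : NN (D L) := NN.prod _ _ fun _ _ => NN.one.add (NN.X_pow _)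

theorem inv_prod {ι : Type*} (s : Finset ι) (f : ι → PowerSeries ℚ) :
    (∏ i ∈ s, f i)⁻¹ = ∏ i ∈ s, (f i)⁻¹ := by
  classical
  induction s using Finset.induction_on with
  | empty => simp
  | insert a s ha ih =>
    rw [Finset.prod_insert ha, Finset.prod_insert ha, PowerSeries.mul_inv_rev, ih, mul_comm]

theorem inv_poch (L : ℕ) : (poch X (X ^ 2) L)⁻¹ = N L := by
  unfold poch N
  rw [inv_prod]
  refine Finset.prod_congr rfl fun i _ => ?_
  congr 2
  rw [← pow_mul, ← pow_succ']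

/-- Auxiliary: a product of series `⪰ 1` is `⪰ 1`. -/
theorem NN.prod_sub_one {ι : Type*} (s : Finset ι) (f : ι → PowerSeries ℚ)
    (h : ∀ i ∈ s, NN (f i - 1)) : NN (∏ i ∈ s, f i - 1) := by
  classical
  induction s using Finset.induction_on with
  | empty => simpa using NN.zero
  | insert a s ha ih =>
    rw [Finset.prod_insert ha]
    have h1 : NN (f a - 1) := h a (by simp)
    have h2 := ih fun i hi => h i (by simp [hi])
    have h3 : f a * ∏ i ∈ s, f i - 1 = (f a - 1) * (∏ i ∈ s, f i - 1) + (f a - 1)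
        + (∏ i ∈ s, f i - 1) := by ring
    rw [h3]
    exact ((h1.mul h2).add h1).add h2

/-- `(q;q^2)_M (-q;q)_M = (q^(M+1);q)_M` -/
theorem key_identity (M : ℕ) :
    (∏ i ∈ range M, (1 - X ^ (2 * i + 1) : PowerSeries ℚ)) * D M
      = ∏ i ∈ range M, (1 - X ^ (M + 1 + i)) := by
  induction M with
  | zero => simp [D]
  | succ M ih =>
    have h1 : (∏ i ∈ range (M + 1), (1 - X ^ (M + 1 + 1 + i) : PowerSeries ℚ)) * (1 - X ^ (M + 1))
        = (∏ i ∈ range M, (1 - X ^ (M + 1 + i))) * (1 - X ^ (2 * M + 1)) *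
          (1 - X ^ (2 * M + 2)) := by
      have h2 : (∏ i ∈ range (M + 2), (1 - X ^ (M + 1 + i) : PowerSeries ℚ))
          = (∏ i ∈ range (M + 1), (1 - X ^ (M + 1 + 1 + i))) * (1 - X ^ (M + 1)) := by
        rw [Finset.prod_range_succ']
        simp only [Nat.add_zero]
        congr 1
        refine Finset.prod_congr rfl fun i _ => ?_
        congr 2
        omega
      rw [← h2, Finset.prod_range_succ, Finset.prod_range_succ]
      have e1 : M + 1 + M = 2 * M + 1 := by omega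
      have e2 : M + 1 + (M + 1) = 2 * M + 2 := by omega
      rw [e1, e2]
    have hne : (1 - X ^ (M + 1) : PowerSeries ℚ) ≠ 0 := by
      intro h
      exact cc_one_sub_X_pow (k := M + 1) (by omega) (by rw [h]; simp)
    apply mul_right_cancel₀ hne
    rw [h1, ← ih, Finset.prod_range_succ]
    have hD : D (M + 1) = D M * (1 + X ^ (M + 1)) := by
      unfold D; rw [Finset.prod_range_succ]
    rw [hD]
    have hx : (X ^ (2 * M + 2) : PowerSeries ℚ) = (X ^ (M + 1)) ^ 2 := by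
      rw [← pow_mul]; congr 1; omega
    rw [hx]
    ring

theorem prod_mul_N (M : ℕ) :
    (∏ i ∈ range M, (1 - X ^ (2 * i + 1) : PowerSeries ℚ)) * N M = 1 := by
  unfold N
  rw [← Finset.prod_mul_distrib]
  exact Finset.prod_eq_one fun i _ => one_sub_mul_inv (by omega)

theorem prod_mul_R (M : ℕ) :
    (∏ i ∈ range M, (1 - X ^ (M + 1 + i) : PowerSeries ℚ)) * R M = 1 := by
  unfold R
  rw [← Finset.prod_mul_distrib]
  exact Finset.prod_eq_one fun i _ => one_sub_mul_inv (by omega)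

/-- `1/(q;q^2)_M = (-q;q)_M / (q^(M+1);q)_M` -/
theorem N_eq (M : ℕ) : N M = D M * R M := by
  have h1 := key_identity M
  have h2 := prod_mul_N M
  have h3 := prod_mul_R M
  calc N M = N M * ((∏ i ∈ range M, (1 - X ^ (M + 1 + i))) * R M) := by rw [h3, mul_one]
    _ = N M * (((∏ i ∈ range M, (1 - X ^ (2 * i + 1))) * D M) * R M) := by rw [h1]
    _ = ((∏ i ∈ range M, (1 - X ^ (2 * i + 1))) * N M) * (D M * R M) := by ring
    _ = D M * R M := by rw [h2, one_mul]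

theorem NN_N_sub_D_self (M : ℕ) : NN (N M - D M) := by
  have h : N M - D M = D M * (R M - 1) := by rw [N_eq]; ring
  rw [h]
  exact (NN_D M).mul (NN.prod_sub_one _ _ fun i _ => NN.geom_sub_one (by omega))

theorem NN_D_sub (M k : ℕ) : NN (D (M + k) - D M) := by
  induction k with
  | zero => simpa using NN.zero
  | succ k ih =>
    have h : D (M + (k + 1)) - D M = (D (M + k) - D M) + D (M + k) * X ^ (M + k + 1) := by
      have : D (M + (k + 1)) = D (M + k) * (1 + X ^ (M + k + 1)) := by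
        unfold D; rw [← add_assoc, Finset.prod_range_succ]
      rw [this]; ring
    rw [h]
    exact ih.add ((NN_D _).mul (NN.X_pow _))

/-- `1/(q;q^2)_L ⪰ (-q;q)_M` for `M ≤ L`. -/
theorem NN_N_sub_D (M k : ℕ) : NN (N (M + k) - D M) := by
  have h : N (M + k) - D M = (N (M + k) - D (M + k)) + (D (M + k) - D M) := by ring
  rw [h]
  exact (NN_N_sub_D_self _).add (NN_D_sub _ _)

/-- `(1 - q)/(q;q^2)_L ⪰ 0` for `L ≥ 1`. -/
theorem NN_one_sub_X_mul_N (L : ℕ) : NN ((1 - X) * N (L + 1)) := by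
  have h : (1 - X) * N (L + 1) = ∏ i ∈ range L, (1 - X ^ (2 * (i + 1) + 1) : PowerSeries ℚ)⁻¹ := by
    unfold N
    rw [Finset.prod_range_succ']
    have := one_sub_mul_inv (k := 1) one_ne_zero
    rw [pow_one] at this
    simp only [mul_zero, zero_add, pow_one]
    calc (1 - X) * ((∏ i ∈ range L, (1 - X ^ (2 * (i + 1) + 1) : PowerSeries ℚ)⁻¹) * (1 - X)⁻¹)
        = ((1 - X) * (1 - X)⁻¹) * (∏ i ∈ range L, (1 - X ^ (2 * (i + 1) + 1))⁻¹) := by ring
      _ = _ := by rw [this, one_mul]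
  rw [h]
  exact NN.prod _ _ fun i _ => NN.geom (by omega)


theorem ne_zero_of_one_sub {k : ℕ} (hk : k ≠ 0) : (1 - X ^ k : PowerSeries ℚ) ≠ 0 := by
  intro h
  exact cc_one_sub_X_pow hk (by rw [h]; simp)

/-- defining relation of `[M+2, 2]` with base `X^r` -/
theorem gauss_two (r M : ℕ) (hr : r ≠ 0) :
    gauss (X ^ r) (M + 2) 2 * ((1 - X ^ r) * (1 - X ^ (2 * r)))
      = (1 - X ^ (r * (M + 1))) * (1 - X ^ (r * (M + 2))) := by
  unfold gauss
  rw [if_pos (by omega)]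
  have hM : M + 2 - 2 = M := by omega
  rw [hM]
  have hp : poch (X ^ r) (X ^ r) (M + 2)
      = poch (X ^ r) (X ^ r) M * ((1 - X ^ (r * (M + 1))) * (1 - X ^ (r * (M + 2)))) := by
    unfold poch
    rw [Finset.prod_range_succ, Finset.prod_range_succ]
    have e1 : (X ^ r * (X ^ r) ^ M : PowerSeries ℚ) = X ^ (r * (M + 1)) := by
      rw [← pow_succ', ← pow_mul]
    have e2 : (X ^ r * (X ^ r) ^ (M + 1) : PowerSeries ℚ) = X ^ (r * (M + 2)) := by
      rw [← pow_succ', ← pow_mul]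
    rw [e1, e2]; ring
  have h2 : poch (X ^ r) (X ^ r) 2 = (1 - X ^ r : PowerSeries ℚ) * (1 - X ^ (2 * r)) := by
    unfold poch
    rw [Finset.prod_range_succ, Finset.prod_range_succ, Finset.prod_range_zero]
    ring
  have hcc : constantCoeff (poch (X ^ r) (X ^ r) 2 * poch (X ^ r) (X ^ r) M : PowerSeries ℚ) ≠ 0 := by
    rw [map_mul]
    refine mul_ne_zero ?_ ?_
    · rw [h2, map_mul]
      exact mul_ne_zero (cc_one_sub_X_pow hr) (cc_one_sub_X_pow (by omega))
    · unfold poch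
      rw [map_prod]
      refine Finset.prod_ne_zero_iff.mpr fun i _ => ?_
      rw [← pow_succ', ← pow_mul]
      exact cc_one_sub_X_pow (Nat.mul_ne_zero hr (by omega))
  have hinv := PowerSeries.mul_inv_cancel _ hcc
  rw [hp, ← h2]
  calc _ = ((1 - X ^ (r * (M + 1))) * (1 - X ^ (r * (M + 2)))) *
        ((poch (X ^ r) (X ^ r) 2 * poch (X ^ r) (X ^ r) M) *
          (poch (X ^ r) (X ^ r) 2 * poch (X ^ r) (X ^ r) M)⁻¹) := by ring
    _ = _ := by rw [hinv, mul_one]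

theorem D_succ (M : ℕ) : D (M + 1) = D M * (1 + X ^ (M + 1)) := by
  unfold D; rw [Finset.prod_range_succ]

/-- `(1+q)(1+q^2)(-q^3;q)_M = (-q;q)_{M+2}` -/
theorem poch_neg (M : ℕ) : (1 + X) * (1 + X ^ 2) * poch (-X ^ 3) X M = D (M + 2) := by
  unfold poch D
  rw [Finset.prod_range_succ', Finset.prod_range_succ']
  simp only [zero_add, pow_one]
  have h : ∀ i, (1 - -X ^ 3 * X ^ i : PowerSeries ℚ) = 1 + X ^ (i + 1 + 1 + 1) := by
    intro i; ring
  rw [Finset.prod_congr rfl fun i _ => h i]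
  ring

/-- `[M+2,2]_q (-q^3;q)_M = [M+2,2]_{q^2} (-q;q)_M` -/
theorem gauss_mul_poch (M : ℕ) :
    gauss X (M + 2) 2 * poch (-X ^ 3) X M = gauss (X ^ 2) (M + 2) 2 * D M := by
  have h1 := gauss_two 1 M one_ne_zero
  have h2 := gauss_two 2 M two_ne_zero
  rw [pow_one, one_mul, one_mul] at h1
  have hne : ((1 - X ^ 2) * (1 - X ^ 4) : PowerSeries ℚ) ≠ 0 :=
    mul_ne_zero (ne_zero_of_one_sub (by omega)) (ne_zero_of_one_sub (by omega))
  apply mul_right_cancel₀ hne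
  have e4 : (2 * 2 : ℕ) = 4 := rfl
  have e2 : (2 * 1 : ℕ) = 2 := rfl
  rw [e4] at h2
  rw [e2] at h1
  calc gauss X (M + 2) 2 * poch (-X ^ 3) X M * ((1 - X ^ 2) * (1 - X ^ 4))
      = (gauss X (M + 2) 2 * ((1 - X) * (1 - X ^ 2))) *
          ((1 + X) * (1 + X ^ 2) * poch (-X ^ 3) X M) := by ring
    _ = ((1 - X ^ (M + 1)) * (1 - X ^ (M + 2))) * (D M * (1 + X ^ (M + 1)) * (1 + X ^ (M + 2))) := by
        rw [h1, poch_neg, D_succ, D_succ]
    _ = ((1 - (X ^ (M + 1)) ^ 2) * (1 - (X ^ (M + 2)) ^ 2)) * D M := by ring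
    _ = ((1 - X ^ (2 * (M + 1))) * (1 - X ^ (2 * (M + 2)))) * D M := by
        rw [← pow_mul, ← pow_mul, mul_comm (M + 1) 2, mul_comm (M + 2) 2]
    _ = gauss (X ^ 2) (M + 2) 2 * D M * ((1 - X ^ 2) * (1 - X ^ 4)) := by
        rw [← h2]; ring

/-- `∑_{i<n} q^(r i)` -/
noncomputable def gs (r n : ℕ) : PowerSeries ℚ := ∑ i ∈ range n, X ^ (r * i)

theorem NN_gs (r n : ℕ) : NN (gs r n) := NN.sum _ _ fun _ _ => NN.X_pow _

theorem gs_mul (r n : ℕ) : (1 - X ^ r) * gs r n = 1 - X ^ (r * n) := by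
  unfold gs
  have h := mul_neg_geom_sum (X ^ r : PowerSeries ℚ) n
  simp only [← pow_mul] at h
  exact h

/-- factorisation of `[M+2,2]_{q^2}` -/
theorem gauss_factor (M : ℕ) : ∃ a b : ℕ, 2 * b ≤ M + 2 ∧
    (1 - X ^ 2) * gauss (X ^ 2) (M + 2) 2 = (1 - X ^ (2 * a)) * gs 4 b ∧
    gauss (X ^ 2) (M + 2) 2 = gs 2 a * gs 4 b := by
  have h2 := gauss_two 2 M two_ne_zero
  have e4 : (2 * 2 : ℕ) = 4 := rfl
  rw [e4] at h2
  obtain ⟨a, b, hb, hab⟩ : ∃ a b : ℕ, 2 * b ≤ M + 2 ∧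
      ((1 - X ^ (2 * (M + 1))) * (1 - X ^ (2 * (M + 2))) : PowerSeries ℚ)
        = (1 - X ^ (2 * a)) * (1 - X ^ (4 * b)) := by
    rcases Nat.even_or_odd' M with ⟨c, hc | hc⟩
    · refine ⟨M + 1, c + 1, by omega, ?_⟩
      have : 4 * (c + 1) = 2 * (M + 2) := by omega
      rw [this]
    · refine ⟨M + 2, c + 1, by omega, ?_⟩
      have : 4 * (c + 1) = 2 * (M + 1) := by omega
      rw [this]; ring
  refine ⟨a, b, hb, ?_, ?_⟩
  · apply mul_right_cancel₀ (ne_zero_of_one_sub (k := 4) (by omega))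
    have h4 := gs_mul 4 b
    calc (1 - X ^ 2) * gauss (X ^ 2) (M + 2) 2 * (1 - X ^ 4)
        = gauss (X ^ 2) (M + 2) 2 * ((1 - X ^ 2) * (1 - X ^ 4)) := by ring
      _ = (1 - X ^ (2 * a)) * ((1 - X ^ 4) * gs 4 b) := by rw [h2, hab, h4]
      _ = _ := by ring
  · have hne : ((1 - X ^ 2) * (1 - X ^ 4) : PowerSeries ℚ) ≠ 0 :=
      mul_ne_zero (ne_zero_of_one_sub (by omega)) (ne_zero_of_one_sub (by omega))
    apply mul_right_cancel₀ hne
    rw [h2, hab, ← gs_mul 4 b, ← gs_mul 2 a]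
    ring

/-- `∑_{i<b} q^(4i) ⪯ ∑_{i<n} q^(2i)` when `2b ≤ n` -/
theorem gs_le (b k : ℕ) : NN (gs 2 (2 * b + k) - gs 4 b) := by
  have h1 : gs 2 (2 * b + k) = gs 2 (2 * b) + ∑ i ∈ range k, X ^ (2 * (2 * b + i)) := by
    unfold gs; rw [Finset.sum_range_add]
  have h2 : gs 2 (2 * b) = (1 + X ^ 2) * gs 4 b := by
    apply mul_left_cancel₀ (ne_zero_of_one_sub (k := 2) (by omega))
    have h4 := gs_mul 4 b
    have h5 := gs_mul 2 (2 * b)
    have e : 2 * (2 * b) = 4 * b := by ring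
    rw [e] at h5
    rw [h5, ← h4]; ring
  have h3 : gs 2 (2 * b + k) - gs 4 b = X ^ 2 * gs 4 b + ∑ i ∈ range k, X ^ (2 * (2 * b + i)) := by
    rw [h1, h2]; ring
  rw [h3]
  exact ((NN.X_pow 2).mul (NN_gs 4 b)).add (NN.sum _ _ fun _ _ => NN.X_pow _)

/-- The inequality for `L = M + 4`. -/
theorem main_ineq (M : ℕ) :
    NN (N (M + 4) * (gs 2 (M + 3) + X ^ 3 * gauss (X ^ 2) (M + 2) 2)
      - X * gauss (X ^ 2) (M + 2) 2 * D M) := by
  obtain ⟨a, b, hb, h1, h2⟩ := gauss_factor M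
  obtain ⟨k, hk⟩ : ∃ k, M + 3 = 2 * b + k := ⟨M + 3 - 2 * b, by omega⟩
  set G := gauss (X ^ 2) (M + 2) 2 with hG
  have hGn : NN G := by rw [h2]; exact (NN_gs _ _).mul (NN_gs _ _)
  have hmain : N (M + 4) * (gs 2 (M + 3) + X ^ 3 * G) - X * G * D M
      = X * G * (N (M + 4) - D M) + N (M + 4) * (gs 2 (2 * b + k) - gs 4 b)
        + ((1 - X) * N (M + 4)) * gs 4 b + N (M + 4) * (X ^ (2 * a + 1) * gs 4 b) := by
    rw [hk]
    have hx : (X ^ (2 * a + 1) : PowerSeries ℚ) = X * X ^ (2 * a) := by rw [pow_succ']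
    rw [hx]
    linear_combination (-(X * N (M + 4))) * h1
  rw [hmain]
  refine ((((NN.var.mul hGn).mul (NN_N_sub_D M 4)).add ?_).add ?_).add ?_
  · exact (NN_N _).mul (gs_le b k)
  · exact (NN_one_sub_X_mul_N (M + 3)).mul (NN_gs 4 b)
  · exact (NN_N _).mul ((NN.X_pow _).mul (NN_gs 4 b))

theorem lhs_eq (L : ℕ) (hL : 1 ≤ L) :
    lhs L = N L * (gs 2 (L - 1) + X ^ 3 * gauss (X ^ 2) (L - 2) 2) := by
  unfold lhs
  rw [inv_poch]
  congr 2
  have h := gs_mul 2 (L - 1)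
  have e : 2 * (L - 1) = 2 * L - 2 := by omega
  rw [e] at h
  rw [← h]
  have := one_sub_mul_inv (k := 2) two_ne_zero
  calc (1 - X ^ 2) * gs 2 (L - 1) * (1 - X ^ 2)⁻¹ = ((1 - X ^ 2) * (1 - X ^ 2)⁻¹) * gs 2 (L - 1) := by
        ring
    _ = _ := by rw [this, one_mul]

theorem gauss_zero {b : PowerSeries ℚ} {n m : ℕ} (h : n < m) : gauss b n m = 0 := by
  unfold gauss; rw [if_neg (by omega)]

theorem final (L : ℕ) (hL : 1 ≤ L) : NN (lhs L - rhs L) := by
  rcases Nat.lt_or_ge L 4 with h | h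
  · rw [lhs_eq L hL]
    unfold rhs
    rw [gauss_zero (b := X) (show L - 2 < 2 by omega), gauss_zero (show L - 2 < 2 by omega)]
    simp only [mul_zero, zero_mul, add_zero, sub_zero]
    exact (NN_N _).mul (NN_gs _ _)
  · obtain ⟨M, rfl⟩ : ∃ M, L = M + 4 := ⟨L - 4, by omega⟩
    rw [lhs_eq _ hL]
    unfold rhs
    have e1 : M + 4 - 2 = M + 2 := by omega
    have e2 : M + 4 - 4 = M := by omega
    have e3 : M + 4 - 1 = M + 3 := by omega
    rw [e1, e2, e3]
    have h := main_ineq M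
    have e : X * gauss X (M + 2) 2 * poch (-X ^ 3) X M = X * gauss (X ^ 2) (M + 2) 2 * D M := by
      rw [mul_assoc, gauss_mul_poch, mul_assoc]
    rw [e]
    exact h

end Q155.QI
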